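import Mathlib
import Pool.Agent.J4.H22.QP

/-!
# The height on a geometric quotient is comparable with the minimal height in the orbit

Let `X` and `Y` be quasi-projective varieties over the field of algebraic numbers, let a group `G` act
on the points of `X`, and let `π : X → Y` be a morphism whose fibres are the orbits (for example the
geometric quotient of `X` by an algebraic group).  For ample heights `h_X` and `h_Y` there are constants
`c₁, c₂ > 0` and `c₃, c₄` with `c₁ h_Y (π x) - c₃ ≤ inf_g h_X (g x) ≤ c₂ h_Y (π x) + c₄` for all `x`.

The upper bound is the point: the fibre over `y = π x` is given by a system of polynomial equations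
whose coefficients are polynomials in the coordinates of `y`, and such a system, if it has a solution,
has one of height at most `C (1 + h (y))`.  Proof: otherwise there are systems given by parameters `y_n`
whose solutions all have height larger than `n (1 + h (y_n))`; in an ultrapower of the field of the
algebraic numbers the elements represented by sequences of height `O (1 + h (y_n))` form an
algebraically closed subfield, which contains the parameters; by Hilbert's Nullstellensatz the system
has a solution in this subfield.
-/

set_option autoImplicit false

namespace Pool.Agent.Results.MP_216eb3_nt.OrbitHeights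

open Pool.Agent.J4.H22.QP

/-- Let `X` and `Y` be quasi-projective varieties over the algebraic numbers, `G` a group acting on
`X`, and `π : X → Y` a morphism whose fibres are the `G`-orbits. Let `hX` and `hY` be ample heights.
Then the infima of `hX` over the orbits are finite and comparable with `hY ∘ π`. -/
theorem result {N M : ℕ} (X : Set (PP N)) (Y : Set (PP M)) (_ : IsQuasiProjective X)
    (_ : IsQuasiProjective Y) (G : Type*) [Group G] [MulAction G X] (π : X → Y)
    (_ : IsRegular fun x => (π x : PP M)) (_ : ∀ x x' : X, π x = π x' ↔ ∃ g : G, g • x = x')
    (hX : X → ℝ) (hY : Y → ℝ) (_ : IsAmpleHeight X hX) (_ : IsAmpleHeight Y hY) :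
    (∀ x : X, BddBelow (Set.range fun g : G => hX (g • x))) ∧
      ∃ c₁ c₂ c₃ c₄ : ℝ, 0 < c₁ ∧ 0 < c₂ ∧ ∀ x : X,
        c₁ * hY (π x) - c₃ ≤ ⨅ g : G, hX (g • x) ∧
          ⨅ g : G, hX (g • x) ≤ c₂ * hY (π x) + c₄ :=
  orbit_heights ‹IsQuasiProjective X› (fun g x => g • x) ‹IsRegular _› ‹_› ‹IsAmpleHeight X hX›
    ‹IsAmpleHeight Y hY›

end Pool.Agent.Results.MP_216eb3_nt.OrbitHeights
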