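import Mathlib
import Pool.Agent.J4.H22.RatD

/-!
# The height on the moduli space of rational maps is comparable with the minimal height of a conjugate

`Rat_d ⊂ ℙ ^ (2 d + 1)` is the space of the rational maps of degree `d ≥ 2` of the projective line over
the field of algebraic numbers, and `PGL_2` acts on it by conjugation.  Let `π : Rat_d → ℙ ^ M` be a
morphism whose fibres are the conjugacy classes: the quotient map `Rat_d → M_d`, followed by an
embedding of the moduli space `M_d` in `ℙ ^ M`.  There are constants `c₁, c₂ > 0` and `c₃, c₄` with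
`c₁ h (π f) - c₃ ≤ inf_φ h (f ^ φ) ≤ c₂ h (π f) + c₄` for all `f ∈ Rat_d`.
-/

set_option autoImplicit false

namespace Pool.Agent.Results.MP_216eb3_nt.RationalMaps

open Pool.Agent.J4.H22.QP Pool.Agent.J4.H22.RatD Pool.Agent.Helper259.AbsHt

/-- Let `d ≥ 2`, let `Y` be a quasi-projective variety in `ℙ ^ M`, and let `π : Rat_d → Y` be a
morphism whose fibres are the conjugacy classes of rational maps. Then the height `h (π f)` is
comparable with the infimum of the heights of the conjugates `φ⁻¹ ∘ f ∘ φ`, `φ ∈ PGL_2`. -/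
theorem result (d : ℕ) (hd : 2 ≤ d) {M : ℕ} (Y : Set (PP M)) (_ : IsQuasiProjective Y)
    (π : Rat d → Y) (_ : IsRegular fun f => (π f : PP M))
    (_ : ∀ f f' : Rat d, π f = π f' ↔ ∃ A : GL (Fin 2) Qbar, conj A f = f') :
    ∃ c₁ c₂ c₃ c₄ : ℝ, 0 < c₁ ∧ 0 < c₂ ∧ ∀ f : Rat d,
      c₁ * ht (π f : PP M) - c₃ ≤ ⨅ A : GL (Fin 2) Qbar, ht (conj A f : PP (2 * d + 1)) ∧
        ⨅ A : GL (Fin 2) Qbar, ht (conj A f : PP (2 * d + 1)) ≤ c₂ * ht (π f : PP M) + c₄ :=
  (orbit_heights (quasiProjective_Rat (by omega)) conj ‹IsRegular _› ‹_›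
    (isAmple_ht (quasiProjective_Rat (by omega))) (isAmple_ht ‹IsQuasiProjective Y›)).2

end Pool.Agent.Results.MP_216eb3_nt.RationalMaps
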